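import Pool.Agent.H56.QC.Defs

/-!
# Local connectivity of the sublevel sets of a `C^2` function with nondegenerate critical points
-/

set_option autoImplicit false

namespace Pool.Agent.H56.QC

open MeasureTheory Set Filter Topology Metric
open scoped RealInnerProductSpace ENNReal

variable {n : ℕ}

/-! ### Derivatives along lines -/

theorem loc_line (x v : E n) (t : ℝ) : HasDerivAt (fun s : ℝ => x + s • v) v t := by
  simpa using ((hasDerivAt_id t).smul_const v).const_add x

theorem loc_hasDerivAt (g : E n → ℝ) (F : E n → E n) (hg : ∀ x, HasGradientAt g (F x) x)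
    (x v : E n) (t : ℝ) : HasDerivAt (fun s : ℝ => g (x + s • v)) ⟪F (x + t • v), v⟫ t := by
  have h2 := (hg (x + t • v)).hasFDerivAt.comp_hasDerivAt t (loc_line x v t)
  simp only [InnerProductSpace.toDual_apply_apply] at h2
  exact h2

theorem loc_hasDerivAt2 (F : E n → E n) (hF : ContDiff ℝ 1 F) (x v : E n) (t : ℝ) :
    HasDerivAt (fun s : ℝ => ⟪F (x + s • v), v⟫) ⟪fderiv ℝ F (x + t • v) v, v⟫ t := by
  have hd : HasFDerivAt F (fderiv ℝ F (x + t • v)) (x + t • v) :=
    ((hF.differentiable (by norm_num)) _).hasFDerivAt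
  have h2 := hd.comp_hasDerivAt t (loc_line x v t)
  have h3 := h2.inner ℝ (hasDerivAt_const t v)
  simpa using h3

/-- `g` does not increase along a segment on which its directional derivative is `≤ 0`. -/
theorem loc_mono (g : E n → ℝ) (F : E n → E n) (hg : ∀ x, HasGradientAt g (F x) x)
    (x v : E n) (h : ∀ t ∈ Icc (0 : ℝ) 1, ⟪F (x + t • v), v⟫ ≤ 0) :
    ∀ t ∈ Icc (0 : ℝ) 1, g (x + t • v) ≤ g x := by
  have hd := loc_hasDerivAt g F hg x v
  have ha : AntitoneOn (fun s : ℝ => g (x + s • v)) (Icc 0 1) := by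
    apply antitoneOn_of_deriv_nonpos (convex_Icc 0 1)
    · exact fun t _ => (hd t).continuousAt.continuousWithinAt
    · exact fun t _ => (hd t).differentiableAt.differentiableWithinAt
    · intro t ht
      rw [(hd t).deriv]
      exact h t (interior_subset ht)
  intro t ht
  have := ha (left_mem_Icc.2 zero_le_one) ht ht.1
  simpa using this

theorem loc_lt (g : E n → ℝ) (F : E n → E n) (hg : ∀ x, HasGradientAt g (F x) x)
    (hF : ContDiff ℝ 1 F) (x v : E n) (hx : F x = 0)
    (h : ∀ t ∈ Icc (0 : ℝ) 1, ⟪fderiv ℝ F (x + t • v) v, v⟫ < 0) : g (x + v) < g x := by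
  have hd := loc_hasDerivAt g F hg x v
  have hd2 := loc_hasDerivAt2 F hF x v
  have ha : StrictAntiOn (fun s : ℝ => ⟪F (x + s • v), v⟫) (Icc 0 1) := by
    apply strictAntiOn_of_deriv_neg (convex_Icc 0 1)
    · exact fun t _ => (hd2 t).continuousAt.continuousWithinAt
    · intro t ht
      rw [(hd2 t).deriv]
      exact h t (interior_subset ht)
  have hb : StrictAntiOn (fun s : ℝ => g (x + s • v)) (Icc 0 1) := by
    apply strictAntiOn_of_deriv_neg (convex_Icc 0 1)
    · exact fun t _ => (hd t).continuousAt.continuousWithinAt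
    · intro t ht
      rw [interior_Icc] at ht
      rw [(hd t).deriv]
      have := ha (left_mem_Icc.2 zero_le_one) ⟨ht.1.le, ht.2.le⟩ ht.1
      simpa [hx] using this
  have := hb (left_mem_Icc.2 zero_le_one) (right_mem_Icc.2 zero_le_one) zero_lt_one
  simpa using this

theorem loc_gt (g : E n → ℝ) (F : E n → E n) (hg : ∀ x, HasGradientAt g (F x) x)
    (hF : ContDiff ℝ 1 F) (x v : E n) (hx : F x = 0)
    (h : ∀ t ∈ Icc (0 : ℝ) 1, 0 < ⟪fderiv ℝ F (x + t • v) v, v⟫) : g x < g (x + v) := by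
  have hd := loc_hasDerivAt g F hg x v
  have hd2 := loc_hasDerivAt2 F hF x v
  have ha : StrictMonoOn (fun s : ℝ => ⟪F (x + s • v), v⟫) (Icc 0 1) := by
    apply strictMonoOn_of_deriv_pos (convex_Icc 0 1)
    · exact fun t _ => (hd2 t).continuousAt.continuousWithinAt
    · intro t ht
      rw [(hd2 t).deriv]
      exact h t (interior_subset ht)
  have hb : StrictMonoOn (fun s : ℝ => g (x + s • v)) (Icc 0 1) := by
    apply strictMonoOn_of_deriv_pos (convex_Icc 0 1)
    · exact fun t _ => (hd t).continuousAt.continuousWithinAt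
    · intro t ht
      rw [interior_Icc] at ht
      rw [(hd t).deriv]
      have := ha (left_mem_Icc.2 zero_le_one) ⟨ht.1.le, ht.2.le⟩ ht.1
      simpa [hx] using this
  have := hb (left_mem_Icc.2 zero_le_one) (right_mem_Icc.2 zero_le_one) zero_lt_one
  simpa using this

theorem loc_convex (g : E n → ℝ) (F : E n → E n) (hg : ∀ x, HasGradientAt g (F x) x)
    (hF : ContDiff ℝ 1 F) (y v : E n)
    (h : ∀ t ∈ Icc (0 : ℝ) 1, 0 ≤ ⟪fderiv ℝ F (y + t • v) v, v⟫) (c : ℝ) (h0 : g y < c)
    (h1 : g (y + v) < c) : ∀ t ∈ Icc (0 : ℝ) 1, g (y + t • v) < c := by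
  have hd := loc_hasDerivAt g F hg y v
  have hd2 := loc_hasDerivAt2 F hF y v
  have hc : ConvexOn ℝ (Icc 0 1) (fun s : ℝ => g (y + s • v)) := by
    apply convexOn_of_hasDerivWithinAt2_nonneg (convex_Icc 0 1)
      (f' := fun s : ℝ => ⟪F (y + s • v), v⟫) (f'' := fun s : ℝ => ⟪fderiv ℝ F (y + s • v) v, v⟫)
    · exact fun t _ => (hd t).continuousAt.continuousWithinAt
    · exact fun t _ => (hd t).hasDerivWithinAt
    · exact fun t _ => (hd2 t).hasDerivWithinAt
    · exact fun t ht => h t (interior_subset ht)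
  intro t ht
  have h2 := hc.2 (left_mem_Icc.2 zero_le_one) (right_mem_Icc.2 zero_le_one)
    (sub_nonneg.2 ht.2) ht.1 (by ring)
  simp only [smul_eq_mul, mul_zero, mul_one, zero_add, zero_smul, add_zero, one_smul] at h2
  have h3 : (1 - t) * g y + t * g (y + v) < c := by
    rcases eq_or_lt_of_le ht.1 with h4 | h4
    · rw [← h4]
      linarith
    · have h5 := mul_lt_mul_of_pos_left h1 h4
      have h6 := mul_le_mul_of_nonneg_left h0.le (sub_nonneg.2 ht.2)
      nlinarith
  exact lt_of_le_of_lt h2 h3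

/-! ### Joining by segments -/

theorem loc_seg (s : Set (E n)) (p v : E n) (h : ∀ t ∈ Icc (0 : ℝ) 1, p + t • v ∈ s) :
    JoinedIn s p (p + v) := by
  apply JoinedIn.of_segment_subset
  rw [segment_eq_image']
  rintro _ ⟨t, ht, rfl⟩
  simpa using h t ht

theorem loc_seg' (s : Set (E n)) (p q : E n) (h : ∀ t ∈ Icc (0 : ℝ) 1, p + t • (q - p) ∈ s) :
    JoinedIn s p q := by
  have := loc_seg s p (q - p) h
  rwa [add_sub_cancel] at this

/-! ### Regular points -/

theorem lc_regular (g : E n → ℝ) (F : E n → E n) (hg : ∀ x, HasGradientAt g (F x) x)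
    (hF : ContDiff ℝ 1 F) (x : E n) (hx : F x ≠ 0) :
    ∃ N ∈ 𝓝 x, ∀ a ∈ N, ∀ b ∈ N, g a < g x → g b < g x → JoinedIn {z | g z < g x} a b := by
  set u : E n := (‖F x‖⁻¹ : ℝ) • F x with hu
  have hFx : 0 < ‖F x‖ := norm_pos_iff.2 hx
  have hun : ‖u‖ = 1 := by
    rw [hu, norm_smul, norm_inv, norm_norm, inv_mul_cancel₀ hFx.ne']
  have hgc : Continuous g := continuous_iff_continuousAt.2 fun z => (hg z).continuousAt
  have hpos : 0 < ⟪F x, u⟫ := by
    rw [hu, inner_smul_right, real_inner_self_eq_norm_sq]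
    positivity
  have hopen : ∀ᶠ z in 𝓝 x, 0 < ⟪F z, u⟫ := by
    have hc : Continuous fun z => ⟪F z, u⟫ := hF.continuous.inner continuous_const
    exact hc.continuousAt.eventually (lt_mem_nhds hpos)
  obtain ⟨r, hr, hball⟩ := Metric.eventually_nhds_iff_ball.1 hopen
  -- going down
  have hdown : ∀ a, ‖a - x‖ < r / 2 → ∀ t ∈ Icc (0 : ℝ) 1,
      g (a + t • (-(r / 2) • u)) ≤ g a := by
    intro a ha
    apply loc_mono g F hg
    intro t ht
    have hmem : a + t • (-(r / 2) • u) ∈ ball x r := by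
      rw [mem_ball, dist_eq_norm]
      have h1 : a + t • (-(r / 2) • u) - x = (a - x) + t • (-(r / 2) • u) := by abel
      rw [h1]
      have h2 : ‖t • (-(r / 2) • u)‖ ≤ r / 2 := by
        rw [norm_smul, norm_smul, hun, mul_one, Real.norm_eq_abs, Real.norm_eq_abs,
          abs_of_nonneg ht.1, abs_neg, abs_of_pos (by positivity)]
        nlinarith [ht.2]
      calc ‖(a - x) + t • (-(r / 2) • u)‖ ≤ ‖a - x‖ + ‖t • (-(r / 2) • u)‖ := norm_add_le _ _
        _ < r := by linarith
    have h3 := hball _ hmem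
    rw [inner_smul_right]
    nlinarith
  have hx0 : g (x + (-(r / 2) • u)) < g x := by
    have hd := loc_hasDerivAt g F hg x (-(r / 2) • u)
    have ha : StrictAntiOn (fun s : ℝ => g (x + s • (-(r / 2) • u))) (Icc 0 1) := by
      apply strictAntiOn_of_deriv_neg (convex_Icc 0 1)
      · exact fun t _ => (hd t).continuousAt.continuousWithinAt
      · intro t ht
        rw [interior_Icc] at ht
        rw [(hd t).deriv, inner_smul_right]
        have hmem : x + t • (-(r / 2) • u) ∈ ball x r := by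
          rw [mem_ball, dist_eq_norm, add_sub_cancel_left, norm_smul, norm_smul, hun, mul_one,
            Real.norm_eq_abs, Real.norm_eq_abs, abs_of_nonneg ht.1.le, abs_neg,
            abs_of_pos (by positivity)]
          nlinarith [ht.2]
        have h3 := hball _ hmem
        nlinarith
    have := ha (left_mem_Icc.2 zero_le_one) (right_mem_Icc.2 zero_le_one) zero_lt_one
    simpa using this
  have hev : ∀ᶠ z in 𝓝 (x + (-(r / 2) • u)), g z < g x :=
    hgc.continuousAt.eventually (gt_mem_nhds hx0)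
  obtain ⟨δ, hδ, hδb⟩ := Metric.eventually_nhds_iff_ball.1 hev
  refine ⟨ball x (min δ (r / 2)), ball_mem_nhds _ (by positivity), ?_⟩
  have key : ∀ a ∈ ball x (min δ (r / 2)), g a < g x →
      JoinedIn {z | g z < g x} a (a + (-(r / 2) • u)) ∧
      a + (-(r / 2) • u) ∈ ball (x + (-(r / 2) • u)) δ := by
    intro a ha hga
    rw [mem_ball, dist_eq_norm, lt_min_iff] at ha
    refine ⟨loc_seg _ _ _ ?_, ?_⟩
    · intro t ht
      exact lt_of_le_of_lt (hdown a ha.2 t ht) hga
    · rw [mem_ball, dist_eq_norm]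
      have : a + (-(r / 2) • u) - (x + (-(r / 2) • u)) = a - x := by abel
      rw [this]
      exact ha.1
  intro a ha b hb hga hgb
  obtain ⟨h1, h2⟩ := key a ha hga
  obtain ⟨h3, h4⟩ := key b hb hgb
  refine (h1.trans ?_).trans h3.symm
  apply JoinedIn.of_segment_subset
  intro z hz
  exact hδb z ((convex_ball _ _).segment_subset h2 h4 hz)

/-! ### Nondegenerate critical points -/

theorem loc_symm (g : E n → ℝ) (F : E n → E n) (hg : ∀ x, HasGradientAt g (F x) x)
    (hF : ContDiff ℝ 1 F) (x : E n) : Sym (fderiv ℝ F x) := by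
  intro v w
  have hd : HasFDerivAt F (fderiv ℝ F x) x := ((hF.differentiable (by norm_num)) _).hasFDerivAt
  let J : E n →L[ℝ] E n →L[ℝ] ℝ := innerSL ℝ
  have h1 : HasFDerivAt (fun y => J (F y)) (J.comp (fderiv ℝ F x)) x := J.hasFDerivAt.comp x hd
  have h2 : ∀ y, HasFDerivAt g (J (F y)) y := fun y => (hg y).hasFDerivAt
  have h3 := second_derivative_symmetric h2 h1 v w
  have h4 : ⟪fderiv ℝ F x v, w⟫ = ⟪fderiv ℝ F x w, v⟫ := h3
  rw [h4, real_inner_comm]

theorem loc_diag (A : E n →L[ℝ] E n) (hA : Sym A) :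
    ∃ (b : OrthonormalBasis (Fin n) ℝ (E n)) (l : Fin n → ℝ), ∀ i, A (b i) = l i • b i := by
  have hT : (A : E n →ₗ[ℝ] E n).IsSymmetric := fun v w => hA v w
  have hn : Module.finrank ℝ (E n) = n := finrank_euclideanSpace_fin
  exact ⟨hT.eigenvectorBasis hn, hT.eigenvalues hn, fun i => hT.apply_eigenvectorBasis hn i⟩

theorem loc_ne_zero (A : E n →L[ℝ] E n) (b : OrthonormalBasis (Fin n) ℝ (E n)) (l : Fin n → ℝ)
    (h : ∀ i, A (b i) = l i • b i) (hd : A.det ≠ 0) (i : Fin n) : l i ≠ 0 := by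
  intro hi
  have h1 : (A : E n →ₗ[ℝ] E n) (b i) = 0 := by
    have : A (b i) = 0 := by rw [h i, hi, zero_smul]
    exact this
  let e := LinearMap.equivOfDetNeZero (A : E n →ₗ[ℝ] E n) hd
  have h3 : e (b i) = e 0 := by
    rw [map_zero]
    exact h1
  have h4 : b i = 0 := e.injective h3
  have h5 := b.orthonormal.1 i
  rw [h4, norm_zero] at h5
  exact zero_ne_one h5

theorem loc_norm (b : OrthonormalBasis (Fin n) ℝ (E n)) (v : E n) :
    ‖v‖ ^ 2 = ∑ i, ⟪b i, v⟫ ^ 2 := by
  rw [← real_inner_self_eq_norm_sq, ← b.sum_inner_mul_inner v v]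
  apply Finset.sum_congr rfl
  intro i _
  rw [real_inner_comm (b i) v]
  ring

theorem loc_quad (A : E n →L[ℝ] E n) (hA : Sym A) (b : OrthonormalBasis (Fin n) ℝ (E n))
    (l : Fin n → ℝ) (h : ∀ i, A (b i) = l i • b i) (v : E n) :
    ⟪A v, v⟫ = ∑ i, l i * ⟪b i, v⟫ ^ 2 := by
  rw [← b.sum_inner_mul_inner (A v) v]
  apply Finset.sum_congr rfl
  intro i _
  rw [hA v (b i), h i, inner_smul_right, real_inner_comm (b i) v]
  ring

theorem loc_bound (A : E n →L[ℝ] E n) (hA : Sym A) (b : OrthonormalBasis (Fin n) ℝ (E n))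
    (l : Fin n → ℝ) (h : ∀ i, A (b i) = l i • b i) (hl : ∀ i, l i ≠ 0) :
    ∃ m > 0, (∀ v : E n, (∀ i, l i < 0 → ⟪b i, v⟫ = 0) → m * ‖v‖ ^ 2 ≤ ⟪A v, v⟫) ∧
      (∀ v : E n, (∀ i, 0 < l i → ⟪b i, v⟫ = 0) → ⟪A v, v⟫ ≤ -(m * ‖v‖ ^ 2)) := by
  obtain ⟨m, hm, hml⟩ : ∃ m > 0, ∀ i, m ≤ |l i| := by
    rcases isEmpty_or_nonempty (Fin n) with hE | hE
    · exact ⟨1, one_pos, fun i => (hE.false i).elim⟩
    · obtain ⟨i0, hi0⟩ := Finite.exists_min (fun i => |l i|)
      exact ⟨|l i0|, abs_pos.2 (hl i0), hi0⟩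
  refine ⟨m, hm, ?_, ?_⟩
  · intro v hv
    rw [loc_quad A hA b l h, loc_norm b, Finset.mul_sum]
    apply Finset.sum_le_sum
    intro i _
    rcases lt_or_gt_of_ne (hl i) with h1 | h1
    · rw [hv i h1]
      simp
    · have h2 := hml i
      rw [abs_of_pos h1] at h2
      exact mul_le_mul_of_nonneg_right h2 (sq_nonneg _)
  · intro v hv
    rw [loc_quad A hA b l h, loc_norm b, Finset.mul_sum, ← Finset.sum_neg_distrib]
    apply Finset.sum_le_sum
    intro i _
    rcases lt_or_gt_of_ne (hl i) with h1 | h1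
    · have h2 := hml i
      rw [abs_of_neg h1] at h2
      have h3 := mul_le_mul_of_nonneg_right h2 (sq_nonneg ⟪b i, v⟫)
      linarith
    · rw [hv i h1]
      simp

theorem loc_split (b : OrthonormalBasis (Fin n) ℝ (E n)) (l : Fin n → ℝ) (v : E n) : ∃ p m : E n, v = m + p ∧ (∀ i, l i < 0 → ⟪b i, p⟫ = 0) ∧
      (∀ i, 0 < l i → ⟪b i, m⟫ = 0) ∧ ‖p‖ ≤ ‖v‖ ∧ ‖m‖ ≤ ‖v‖ := by
  classical
  set m : E n := ∑ i, (if l i < 0 then ⟪b i, v⟫ else 0) • b i with hm
  have h1 : ∀ i, ⟪b i, m⟫ = if l i < 0 then ⟪b i, v⟫ else 0 := by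
    intro i
    rw [hm]
    exact b.orthonormal.inner_right_fintype _ i
  have h2 : ∀ i, ⟪b i, v - m⟫ = if l i < 0 then 0 else ⟪b i, v⟫ := by
    intro i
    rw [inner_sub_right, h1]
    split_ifs <;> simp
  refine ⟨v - m, m, by abel, ?_, ?_, ?_, ?_⟩
  · intro i hi
    rw [h2, if_pos hi]
  · intro i hi
    rw [h1, if_neg (not_lt.2 hi.le)]
  · apply le_of_sq_le_sq _ (norm_nonneg _)
    rw [loc_norm b, loc_norm b v]
    apply Finset.sum_le_sum
    intro i _
    rw [h2]
    split_ifs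
    · simp [sq_nonneg]
    · exact le_rfl
  · apply le_of_sq_le_sq _ (norm_nonneg _)
    rw [loc_norm b, loc_norm b v]
    apply Finset.sum_le_sum
    intro i _
    rw [h1]
    split_ifs
    · exact le_rfl
    · simp [sq_nonneg]

theorem loc_crit (g : E n → ℝ) (F : E n → E n) (hg : ∀ x, HasGradientAt g (F x) x)
    (hF : ContDiff ℝ 1 F) (x : E n) (hx : F x = 0) (b : OrthonormalBasis (Fin n) ℝ (E n))
    (l : Fin n → ℝ) (hb : ∀ i, fderiv ℝ F x (b i) = l i • b i) (hl : ∀ i, l i ≠ 0) :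
    ∃ r > 0,
      (∀ v : E n, (∀ i, 0 < l i → ⟪b i, v⟫ = 0) → v ≠ 0 → ‖v‖ < r → g (x + v) < g x) ∧
      (∀ v : E n, (∀ i, l i < 0 → ⟪b i, v⟫ = 0) → v ≠ 0 → ‖v‖ < r → g x < g (x + v)) ∧
      (∀ a : E n, ‖a - x‖ < r / 2 → g a < g x → ∃ v : E n, (∀ i, 0 < l i → ⟪b i, v⟫ = 0) ∧
        v ≠ 0 ∧ ‖v‖ < r ∧ JoinedIn {z | g z < g x} a (x + v)) := by
  have hA := loc_symm g F hg hF x
  obtain ⟨m, hm, hplus, hminus⟩ := loc_bound _ hA b l hb hl
  have hcont : Continuous (fderiv ℝ F) := hF.continuous_fderiv (by norm_num)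
  have hev : ∀ᶠ z in 𝓝 x, ‖fderiv ℝ F z - fderiv ℝ F x‖ < m := by
    have hc : Continuous fun z => ‖fderiv ℝ F z - fderiv ℝ F x‖ :=
      (hcont.sub continuous_const).norm
    exact hc.continuousAt.tendsto.eventually_lt_const (by simpa using hm)
  obtain ⟨r, hr, hball⟩ := Metric.eventually_nhds_iff_ball.1 hev
  have hdiff : ∀ z ∈ ball x r, ∀ v : E n, v ≠ 0 →
      |⟪fderiv ℝ F z v, v⟫ - ⟪fderiv ℝ F x v, v⟫| < m * ‖v‖ ^ 2 := by
    intro z hz v hv
    have h1 : ⟪fderiv ℝ F z v, v⟫ - ⟪fderiv ℝ F x v, v⟫ =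
        ⟪(fderiv ℝ F z - fderiv ℝ F x) v, v⟫ := by
      rw [sub_apply, inner_sub_left]
    rw [h1]
    have hv' : 0 < ‖v‖ := norm_pos_iff.2 hv
    calc |⟪(fderiv ℝ F z - fderiv ℝ F x) v, v⟫|
        ≤ ‖(fderiv ℝ F z - fderiv ℝ F x) v‖ * ‖v‖ := abs_real_inner_le_norm _ _
      _ ≤ (‖fderiv ℝ F z - fderiv ℝ F x‖ * ‖v‖) * ‖v‖ := by
          apply mul_le_mul_of_nonneg_right (ContinuousLinearMap.le_opNorm _ _) (norm_nonneg _)
      _ = ‖fderiv ℝ F z - fderiv ℝ F x‖ * ‖v‖ ^ 2 := by ring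
      _ < m * ‖v‖ ^ 2 := by
          apply mul_lt_mul_of_pos_right (hball z hz)
          positivity
  have hp : ∀ z ∈ ball x r, ∀ v : E n, (∀ i, l i < 0 → ⟪b i, v⟫ = 0) → v ≠ 0 →
      0 < ⟪fderiv ℝ F z v, v⟫ := by
    intro z hz v hv hv0
    have h1 := abs_lt.1 (hdiff z hz v hv0)
    have h2 := hplus v hv
    linarith [h1.1]
  have hq : ∀ z ∈ ball x r, ∀ v : E n, (∀ i, 0 < l i → ⟪b i, v⟫ = 0) → v ≠ 0 →
      ⟪fderiv ℝ F z v, v⟫ < 0 := by
    intro z hz v hv hv0
    have h1 := abs_lt.1 (hdiff z hz v hv0)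
    have h2 := hminus v hv
    linarith [h1.2]
  have hline : ∀ v : E n, ‖v‖ < r → ∀ t ∈ Icc (0 : ℝ) 1, x + t • v ∈ ball x r := by
    intro v hv t ht
    rw [mem_ball, dist_eq_norm, add_sub_cancel_left, norm_smul, Real.norm_eq_abs,
      abs_of_nonneg ht.1]
    have := mul_le_mul_of_nonneg_right ht.2 (norm_nonneg v)
    linarith
  have hlow : ∀ v : E n, (∀ i, 0 < l i → ⟪b i, v⟫ = 0) → v ≠ 0 → ‖v‖ < r →
      g (x + v) < g x := by
    intro v hv hv0 hvr
    exact loc_lt g F hg hF x v hx fun t ht => hq _ (hline v hvr t ht) v hv hv0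
  have hup : ∀ v : E n, (∀ i, l i < 0 → ⟪b i, v⟫ = 0) → v ≠ 0 → ‖v‖ < r →
      g x < g (x + v) := by
    intro v hv hv0 hvr
    exact loc_gt g F hg hF x v hx fun t ht => hp _ (hline v hvr t ht) v hv hv0
  refine ⟨r, hr, hlow, hup, ?_⟩
  intro a ha hga
  obtain ⟨p, q, hsum, hpp, hqq, hpn, hqn⟩ := loc_split b l (a - x)
  have hax : a = x + q + p := by
    rw [add_assoc, ← hsum]
    abel
  have hq0 : q ≠ 0 := by
    intro h0
    rw [h0, add_zero] at hax
    by_cases hp0 : p = 0
    · rw [hp0, add_zero] at hax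
      rw [hax] at hga
      exact lt_irrefl _ hga
    · have := hup p hpp hp0 (by linarith)
      rw [← hax] at this
      exact lt_asymm this hga
  refine ⟨q, hqq, hq0, by linarith, ?_⟩
  have hxq := hlow q hqq hq0 (by linarith)
  by_cases hp0 : p = 0
  · rw [hp0, add_zero] at hax
    rw [← hax]
    exact JoinedIn.refl hga
  · rw [hax]
    apply JoinedIn.symm
    apply loc_seg
    apply loc_convex g F hg hF (x + q) p _ (g x) hxq (by rwa [← hax])
    intro t ht
    apply (hp _ _ p hpp hp0).le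
    rw [mem_ball, dist_eq_norm]
    have h1 : x + q + t • p - x = q + t • p := by abel
    rw [h1]
    have h2 : ‖t • p‖ ≤ ‖p‖ := by
      rw [norm_smul, Real.norm_eq_abs, abs_of_nonneg ht.1]
      have := mul_le_mul_of_nonneg_right ht.2 (norm_nonneg p)
      linarith
    calc ‖q + t • p‖ ≤ ‖q‖ + ‖t • p‖ := norm_add_le _ _
      _ < r := by linarith

/-! ### The index of a nondegenerate critical point -/

theorem loc_not_pos1 (A : E n →L[ℝ] E n) (hA : Sym A) (b : OrthonormalBasis (Fin n) ℝ (E n))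
    (l : Fin n → ℝ) (h : ∀ i, A (b i) = l i • b i) (j k : Fin n) (hjk : j ≠ k) (hj : l j < 0)
    (hk : l k < 0) : ¬ Pos1 A := by
  classical
  rintro ⟨e, he⟩
  have hnn : ∀ v : E n, (∀ i, i ≠ j → i ≠ k → ⟪b i, v⟫ = 0) → ⟪A v, v⟫ ≤ 0 := by
    intro v hv
    rw [loc_quad A hA b l h]
    apply Finset.sum_nonpos
    intro i _
    by_cases h1 : i = j
    · rw [h1]
      exact mul_nonpos_of_nonpos_of_nonneg hj.le (sq_nonneg _)
    · by_cases h2 : i = k
      · rw [h2]
        exact mul_nonpos_of_nonpos_of_nonneg hk.le (sq_nonneg _)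
      · rw [hv i h1 h2]
        simp
  have hin : ∀ i i', ⟪b i, b i'⟫ = if i = i' then (1 : ℝ) else 0 :=
    orthonormal_iff_ite.1 b.orthonormal
  by_cases h0 : ⟪e, b j⟫ = 0
  · have hbj : b j ≠ 0 := by
      intro h1
      have h5 := b.orthonormal.1 j
      rw [h1, norm_zero] at h5
      exact zero_ne_one h5
    have h1 := he (b j) hbj h0
    have h2 := hnn (b j) (by
      intro i hi _
      rw [hin, if_neg hi])
    linarith
  · set v : E n := ⟪e, b k⟫ • b j - ⟪e, b j⟫ • b k with hv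
    have hvk : ⟪b k, v⟫ = -⟪e, b j⟫ := by
      rw [hv, inner_sub_right, inner_smul_right, inner_smul_right, hin, hin,
        if_neg (Ne.symm hjk), if_pos rfl]
      ring
    have hv0 : v ≠ 0 := by
      intro h1
      rw [h1, inner_zero_right] at hvk
      apply h0
      linarith
    have h1 := he v hv0 (by
      rw [hv, inner_sub_right, inner_smul_right, inner_smul_right]
      ring)
    have h2 := hnn v (by
      intro i hi hi'
      rw [hv, inner_sub_right, inner_smul_right, inner_smul_right, hin, hin, if_neg hi,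
        if_neg hi']
      ring)
    linarith

theorem loc_pos0 (A : E n →L[ℝ] E n) (hA : Sym A) (b : OrthonormalBasis (Fin n) ℝ (E n))
    (l : Fin n → ℝ) (h : ∀ i, A (b i) = l i • b i) (hl : ∀ i, 0 < l i) : Pos0 A := by
  obtain ⟨m, hm, hplus, -⟩ := loc_bound A hA b l h (fun i => (hl i).ne')
  intro v hv
  have h1 := hplus v (fun i hi => absurd hi (not_lt.2 (hl i).le))
  have h2 : 0 < ‖v‖ := norm_pos_iff.2 hv
  have h3 : 0 < m * ‖v‖ ^ 2 := by positivity
  linarith

theorem loc_pos1 (A : E n →L[ℝ] E n) (hA : Sym A) (b : OrthonormalBasis (Fin n) ℝ (E n))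
    (l : Fin n → ℝ) (h : ∀ i, A (b i) = l i • b i) (hl : ∀ i, l i ≠ 0)
    (hu : ∀ j k, l j < 0 → l k < 0 → j = k) : Pos1 A := by
  obtain ⟨m, hm, hplus, -⟩ := loc_bound A hA b l h hl
  by_cases hj : ∃ j, l j < 0
  · obtain ⟨j, hj⟩ := hj
    refine ⟨b j, ?_⟩
    intro v hv hjv
    have h1 := hplus v (fun i hi => by rw [hu i j hi hj]; exact hjv)
    have h2 : 0 < ‖v‖ := norm_pos_iff.2 hv
    have h3 : 0 < m * ‖v‖ ^ 2 := by positivity
    linarith
  · refine ⟨0, ?_⟩
    intro v hv _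
    have h1 := hplus v (fun i hi => absurd ⟨i, hi⟩ hj)
    have h2 : 0 < ‖v‖ := norm_pos_iff.2 hv
    have h3 : 0 < m * ‖v‖ ^ 2 := by positivity
    linarith

theorem lc_index2 (g : E n → ℝ) (F : E n → E n) (hg : ∀ x, HasGradientAt g (F x) x)
    (hF : ContDiff ℝ 1 F) (x : E n) (hx : F x = 0) (hd : (fderiv ℝ F x).det ≠ 0)
    (h1 : ¬ Pos1 (fderiv ℝ F x)) :
    ∃ N ∈ 𝓝 x, ∀ a ∈ N, ∀ b ∈ N, g a < g x → g b < g x → JoinedIn {z | g z < g x} a b := by
  have hA := loc_symm g F hg hF x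
  obtain ⟨b, l, hb⟩ := loc_diag _ hA
  have hl := loc_ne_zero _ b l hb hd
  obtain ⟨j, k, hj, hk, hjk⟩ : ∃ j k, l j < 0 ∧ l k < 0 ∧ j ≠ k := by
    by_contra hcon
    push Not at hcon
    exact h1 (loc_pos1 _ hA b l hb hl hcon)
  obtain ⟨r, hr, hlow, -, hjoin⟩ := loc_crit g F hg hF x hx b l hb hl
  have hin : ∀ i i', ⟪b i, b i'⟫ = if i = i' then (1 : ℝ) else 0 := by
    classical
    exact orthonormal_iff_ite.1 b.orthonormal
  have hbn : ∀ i, ‖b i‖ = 1 := b.orthonormal.1
  -- two vectors whose segment avoids the origin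
  have hdir : ∀ v w : E n, (∀ i, 0 < l i → ⟪b i, v⟫ = 0) → (∀ i, 0 < l i → ⟪b i, w⟫ = 0) →
      v ≠ 0 → ‖v‖ < r → ‖w‖ < r → (∀ c : ℝ, w ≠ c • v) →
      JoinedIn {z | g z < g x} (x + v) (x + w) := by
    intro v w hv hw hv0 hvr hwr hc
    apply loc_seg'
    intro t ht
    have e1 : x + v + t • (x + w - (x + v)) = x + ((1 - t) • v + t • w) := by
      rw [sub_smul, one_smul, add_sub_add_left_eq_sub, smul_sub]
      abel
    rw [mem_ofPred_eq, e1]
    apply hlow
    · intro i hi
      rw [inner_add_right, inner_smul_right, inner_smul_right, hv i hi, hw i hi]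
      ring
    · intro h0
      rcases eq_or_lt_of_le ht.1 with h4 | h4
      · rw [← h4] at h0
        apply hv0
        simpa using h0
      · apply hc (-(t⁻¹ * (1 - t)))
        have h5 : t • w = -((1 - t) • v) := by
          rw [eq_neg_iff_add_eq_zero, add_comm]
          exact h0
        have h6 : w = t⁻¹ • (t • w) := by
          rw [smul_smul, inv_mul_cancel₀ h4.ne', one_smul]
        rw [h6, h5, smul_neg, smul_smul, neg_smul]
    · calc ‖(1 - t) • v + t • w‖ ≤ ‖(1 - t) • v‖ + ‖t • w‖ := norm_add_le _ _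
        _ = (1 - t) * ‖v‖ + t * ‖w‖ := by
            rw [norm_smul, norm_smul, Real.norm_eq_abs, Real.norm_eq_abs, abs_of_nonneg ht.1,
              abs_of_nonneg (sub_nonneg.2 ht.2)]
        _ < r := by
            rcases eq_or_lt_of_le ht.1 with h4 | h4
            · rw [← h4]
              linarith
            · have h5 := mul_lt_mul_of_pos_left hwr h4
              have h6 := mul_le_mul_of_nonneg_left hvr.le (sub_nonneg.2 ht.2)
              nlinarith
  have hall : ∀ v w : E n, (∀ i, 0 < l i → ⟪b i, v⟫ = 0) → (∀ i, 0 < l i → ⟪b i, w⟫ = 0) →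
      v ≠ 0 → w ≠ 0 → ‖v‖ < r → ‖w‖ < r → JoinedIn {z | g z < g x} (x + v) (x + w) := by
    intro v w hv hw hv0 hw0 hvr hwr
    by_cases hc : ∃ c : ℝ, w = c • v
    · obtain ⟨c, hc⟩ := hc
      have hc0 : c ≠ 0 := by
        intro h0
        rw [h0, zero_smul] at hc
        exact hw0 hc
      -- a third vector
      obtain ⟨u, hu, hun, hcu⟩ : ∃ u : E n, (∀ i, 0 < l i → ⟪b i, u⟫ = 0) ∧ ‖u‖ < r ∧
          ∀ c : ℝ, u ≠ c • v := by
        have hone : ∀ i, l i < 0 → (∀ i', 0 < l i' → ⟪b i', (r / 2) • b i⟫ = 0) ∧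
            ‖(r / 2) • b i‖ < r := by
          intro i hi
          refine ⟨?_, ?_⟩
          · intro i' hi'
            rw [inner_smul_right, hin, if_neg, mul_zero]
            rintro rfl
            linarith
          · rw [norm_smul, hbn, mul_one, Real.norm_eq_abs, abs_of_pos (by positivity)]
            linarith
        by_cases h2 : ∀ c : ℝ, (r / 2) • b j ≠ c • v
        · exact ⟨_, (hone j hj).1, (hone j hj).2, h2⟩
        · refine ⟨_, (hone k hk).1, (hone k hk).2, ?_⟩
          push Not at h2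
          obtain ⟨c1, hc1⟩ := h2
          intro c2 hc2
          have h3 : ⟪(r / 2) • b j, (r / 2) • b k⟫ = (0 : ℝ) := by
            rw [inner_smul_left, inner_smul_right, hin, if_neg hjk]
            simp
          have h4 : ‖(r / 2) • b j‖ = r / 2 := by
            rw [norm_smul, hbn, mul_one, Real.norm_eq_abs, abs_of_pos (by positivity)]
          have h5 : ‖(r / 2) • b k‖ = r / 2 := by
            rw [norm_smul, hbn, mul_one, Real.norm_eq_abs, abs_of_pos (by positivity)]
          rw [hc1, hc2, inner_smul_left, inner_smul_right, real_inner_self_eq_norm_sq] at h3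
          have h6 : 0 < ‖v‖ := norm_pos_iff.2 hv0
          have h7 : c1 = 0 ∨ c2 = 0 := by
            simp only [conj_trivial, mul_eq_zero] at h3
            rcases h3 with h | h | h
            · exact Or.inl h
            · exact Or.inr h
            · exact absurd h (by positivity)
          rcases h7 with h | h
          · rw [hc1, h, zero_smul, norm_zero] at h4
            linarith
          · rw [hc2, h, zero_smul, norm_zero] at h5
            linarith
      refine (hdir v u hv hu hv0 hvr hun hcu).trans (hdir w u hw hu hw0 hwr hun ?_).symm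
      intro c' h
      apply hcu (c' * c)
      rw [h, hc, smul_smul]
    · push Not at hc
      exact hdir v w hv hw hv0 hvr hwr hc
  refine ⟨ball x (r / 2), ball_mem_nhds _ (by positivity), ?_⟩
  intro a ha a' ha' hga hga'
  rw [mem_ball, dist_eq_norm] at ha ha'
  obtain ⟨v, hv, hv0, hvr, hJ⟩ := hjoin a ha hga
  obtain ⟨w, hw, hw0, hwr, hJ'⟩ := hjoin a' ha' hga'
  exact (hJ.trans (hall v w hv hw hv0 hw0 hvr hwr)).trans hJ'.symm

theorem lc_index1 (g : E n → ℝ) (F : E n → E n) (hg : ∀ x, HasGradientAt g (F x) x)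
    (hF : ContDiff ℝ 1 F) (x : E n) (hx : F x = 0) (hd : (fderiv ℝ F x).det ≠ 0)
    (h1 : Pos1 (fderiv ℝ F x)) (h0 : ¬ Pos0 (fderiv ℝ F x)) :
    ∃ N ∈ 𝓝 x, ∃ p q : E n, g p < g x ∧ g q < g x ∧
      ∀ a ∈ N, g a < g x → JoinedIn {z | g z < g x} a p ∨ JoinedIn {z | g z < g x} a q := by
  have hA := loc_symm g F hg hF x
  obtain ⟨b, l, hb⟩ := loc_diag _ hA
  have hl := loc_ne_zero _ b l hb hd
  obtain ⟨j, hj⟩ : ∃ j, l j < 0 := by
    by_contra hcon
    push Not at hcon
    exact h0 (loc_pos0 _ hA b l hb fun i => lt_of_le_of_ne (hcon i) (hl i).symm)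
  have hu : ∀ k, l k < 0 → k = j := by
    intro k hk
    by_contra hne
    exact loc_not_pos1 _ hA b l hb k j hne hk hj h1
  obtain ⟨r, hr, hlow, -, hjoin⟩ := loc_crit g F hg hF x hx b l hb hl
  have hin : ∀ i i', ⟪b i, b i'⟫ = if i = i' then (1 : ℝ) else 0 := by
    classical
    exact orthonormal_iff_ite.1 b.orthonormal
  have hbn : ∀ i, ‖b i‖ = 1 := b.orthonormal.1
  have hmul : ∀ v : E n, (∀ i, 0 < l i → ⟪b i, v⟫ = 0) → v = ⟪b j, v⟫ • b j := by
    intro v hv
    have h2 : v = ∑ i, ⟪b i, v⟫ • b i := (b.sum_repr' v).symm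
    conv_lhs => rw [h2]
    apply Finset.sum_eq_single j
    · intro i _ hi
      have : 0 < l i := by
        rcases lt_or_gt_of_ne (hl i) with h3 | h3
        · exact absurd (hu i h3) hi
        · exact h3
      rw [hv i this, zero_smul]
    · intro h3
      exact absurd (Finset.mem_univ j) h3
  have hbj : ∀ t : ℝ, t ≠ 0 → |t| < r → g (x + t • b j) < g x := by
    intro t ht htr
    apply hlow
    · intro i hi
      rw [inner_smul_right, hin, if_neg, mul_zero]
      rintro rfl
      linarith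
    · intro h2
      have : ‖t • b j‖ = 0 := by rw [h2, norm_zero]
      rw [norm_smul, hbn, mul_one, Real.norm_eq_abs, abs_eq_zero] at this
      exact ht this
    · rw [norm_smul, hbn, mul_one]
      exact htr
  have hseg : ∀ s t : ℝ, |s| < r → |t| < r → 0 < s * t →
      JoinedIn {z | g z < g x} (x + s • b j) (x + t • b j) := by
    intro s t hs ht hst
    apply loc_seg'
    intro u hu
    have e1 : x + s • b j + u • (x + t • b j - (x + s • b j)) =
        x + ((1 - u) * s + u * t) • b j := by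
      rw [add_sub_add_left_eq_sub, ← sub_smul, smul_smul, add_assoc, ← add_smul]
      congr 2
      ring
    rw [mem_ofPred_eq, e1]
    have h2 : 0 < ((1 - u) * s + u * t) * s := by
      have hs0 : s ≠ 0 := by
        rintro rfl
        simp at hst
      have hss : 0 < s * s := mul_self_pos.2 hs0
      rcases eq_or_lt_of_le hu.1 with h4 | h4
      · rw [← h4]
        simpa using hss
      · have h5 := mul_pos h4 hst
        have h6 := mul_nonneg (sub_nonneg.2 hu.2) hss.le
        nlinarith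
    apply hbj
    · intro h3
      rw [h3, zero_mul] at h2
      exact lt_irrefl _ h2
    · rw [abs_lt] at hs ht ⊢
      constructor
      · rcases eq_or_lt_of_le hu.1 with h4 | h4
        · rw [← h4]
          linarith [hs.1]
        · have h5 := mul_lt_mul_of_pos_left ht.1 h4
          have h6 := mul_le_mul_of_nonneg_left hs.1.le (sub_nonneg.2 hu.2)
          nlinarith
      · rcases eq_or_lt_of_le hu.1 with h4 | h4
        · rw [← h4]
          linarith [hs.2]
        · have h5 := mul_lt_mul_of_pos_left ht.2 h4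
          have h6 := mul_le_mul_of_nonneg_left hs.2.le (sub_nonneg.2 hu.2)
          nlinarith
  have hr2 : |r / 2| < r := by
    rw [abs_of_pos (by positivity)]
    linarith
  have hr2' : |-(r / 2)| < r := by rwa [abs_neg]
  refine ⟨ball x (r / 2), ball_mem_nhds _ (by positivity), x + (r / 2) • b j,
    x + (-(r / 2)) • b j, hbj _ (by positivity) hr2, hbj _ (neg_ne_zero.2 (by positivity)) hr2',
    ?_⟩
  intro a ha hga
  rw [mem_ball, dist_eq_norm] at ha
  obtain ⟨v, hv, hv0, hvr, hJ⟩ := hjoin a ha hga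
  have hvj := hmul v hv
  have ht0 : ⟪b j, v⟫ ≠ 0 := by
    intro h2
    rw [h2, zero_smul] at hvj
    exact hv0 hvj
  have htr : |⟪b j, v⟫| < r := by
    have : ‖v‖ = |⟪b j, v⟫| := by
      conv_lhs => rw [hvj]
      rw [norm_smul, hbn, mul_one, Real.norm_eq_abs]
    rwa [← this]
  rw [hvj] at hJ
  rcases lt_or_gt_of_ne ht0 with h2 | h2
  · right
    exact hJ.trans (hseg _ _ htr hr2' (mul_pos_of_neg_of_neg h2 (by linarith)))
  · left
    exact hJ.trans (hseg _ _ htr hr2 (mul_pos h2 (by positivity)))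

theorem lc_index0 (g : E n → ℝ) (F : E n → E n) (hg : ∀ x, HasGradientAt g (F x) x)
    (hF : ContDiff ℝ 1 F) (x : E n) (hx : F x = 0) (h0 : Pos0 (fderiv ℝ F x)) :
    ∃ r > 0, ∀ z, z ≠ x → ‖z - x‖ ≤ r → g x < g z := by
  have hA := loc_symm g F hg hF x
  obtain ⟨b, l, hb⟩ := loc_diag _ hA
  have hl : ∀ i, 0 < l i := by
    intro i
    have hbi : b i ≠ 0 := by
      intro h1
      have h5 := b.orthonormal.1 i
      rw [h1, norm_zero] at h5
      exact zero_ne_one h5
    have h2 := h0 (b i) hbi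
    rw [hb i, real_inner_smul_left, real_inner_self_eq_norm_sq, b.orthonormal.1 i] at h2
    simpa using h2
  obtain ⟨r, hr, -, hup, -⟩ := loc_crit g F hg hF x hx b l hb (fun i => (hl i).ne')
  refine ⟨r / 2, by positivity, ?_⟩
  intro z hz hzr
  have h1 := hup (z - x) (fun i hi => absurd hi (not_lt.2 (hl i).le)) (sub_ne_zero.2 hz)
    (by linarith)
  rwa [add_sub_cancel] at h1

theorem pos0_of_isLocalMin (g : E n → ℝ) (F : E n → E n) (hg : ∀ x, HasGradientAt g (F x) x)
    (hF : ContDiff ℝ 1 F) (x : E n) (hd : (fderiv ℝ F x).det ≠ 0) (hm : IsLocalMin g x) :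
    F x = 0 ∧ Pos0 (fderiv ℝ F x) := by
  have hx : F x = 0 := by
    have h1 := hm.hasFDerivAt_eq_zero (hg x).hasFDerivAt
    simpa using h1
  refine ⟨hx, ?_⟩
  have hA := loc_symm g F hg hF x
  obtain ⟨b, l, hb⟩ := loc_diag _ hA
  have hl := loc_ne_zero _ b l hb hd
  apply loc_pos0 _ hA b l hb
  intro j
  by_contra hj
  have hj : l j < 0 := lt_of_le_of_ne (not_lt.1 hj) (hl j)
  obtain ⟨r, hr, hlow, -, -⟩ := loc_crit g F hg hF x hx b l hb hl
  obtain ⟨s, hs, hball⟩ := Metric.eventually_nhds_iff_ball.1 hm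
  have hin : ∀ i i', ⟪b i, b i'⟫ = if i = i' then (1 : ℝ) else 0 := by
    classical
    exact orthonormal_iff_ite.1 b.orthonormal
  set t : ℝ := min r s / 2 with ht
  have ht0 : 0 < t := by positivity
  have htr : t < r := by
    have := min_le_left r s
    linarith
  have hts : t < s := by
    have := min_le_right r s
    linarith
  have hnorm : ‖t • b j‖ = t := by
    rw [norm_smul, b.orthonormal.1 j, mul_one, Real.norm_eq_abs, abs_of_pos ht0]
  have h1 : g (x + t • b j) < g x := by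
    apply hlow
    · intro i hi
      rw [inner_smul_right, hin, if_neg, mul_zero]
      rintro rfl
      linarith
    · intro h2
      rw [h2, norm_zero] at hnorm
      linarith
    · rw [hnorm]
      exact htr
  have h2 := hball (x + t • b j) (by
    rw [mem_ball, dist_eq_norm, add_sub_cancel_left, hnorm]
    exact hts)
  linarith

end Pool.Agent.H56.QC
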