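import Pool.Agent.H56.QC.Defs

/-!
# The weak differential of the extension by the identity
-/

set_option autoImplicit false

namespace Pool.Agent.H56.QC

open MeasureTheory Set Filter Topology Metric
open scoped RealInnerProductSpace ENNReal

variable {n : ℕ}

/-! ### Cutoff functions -/

/-- Cutoff: `1` if `‖x‖ ^ 2 ≤ 1 - 2 δ`, `0` if `‖x‖ ^ 2 ≥ 1 - δ`. -/
noncomputable def extEta (n : ℕ) (δ : ℝ) (x : E n) : ℝ :=
  Real.smoothTransition ((1 - δ - ‖x‖ ^ 2) * δ⁻¹)

theorem ext_eta_contDiff (δ : ℝ) : ContDiff ℝ (⊤ : ℕ∞) (extEta n δ) :=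
  Real.smoothTransition.contDiff.comp ((contDiff_const.sub (contDiff_norm_sq ℝ)).mul
    contDiff_const)

theorem ext_eta_le_one (δ : ℝ) (x : E n) : extEta n δ x ≤ 1 := Real.smoothTransition.le_one _

theorem ext_eta_nonneg (δ : ℝ) (x : E n) : 0 ≤ extEta n δ x := Real.smoothTransition.nonneg _

theorem ext_eta_zero (δ : ℝ) (hδ : 0 < δ) (x : E n) (hx : 1 - δ ≤ ‖x‖ ^ 2) :
    extEta n δ x = 0 := by
  apply Real.smoothTransition.zero_of_nonpos
  have : 0 < δ⁻¹ := inv_pos.2 hδ
  apply mul_nonpos_of_nonpos_of_nonneg _ this.le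
  linarith

theorem ext_eta_one (δ : ℝ) (hδ : 0 < δ) (x : E n) (hx : ‖x‖ ^ 2 ≤ 1 - 2 * δ) :
    extEta n δ x = 1 := by
  apply Real.smoothTransition.one_of_one_le
  rw [← div_eq_mul_inv, le_div_iff₀ hδ]
  linarith

theorem ext_eta_tsupport (δ : ℝ) (hδ : 0 < δ) :
    tsupport (extEta n δ) ⊆ {x | ‖x‖ ^ 2 ≤ 1 - δ} := by
  apply closure_minimal
  · intro x hx
    by_contra hcon
    rw [mem_ofPred_eq, not_le] at hcon
    exact hx (ext_eta_zero δ hδ x hcon.le)
  · exact isClosed_le (continuous_norm.pow 2) continuous_const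

theorem ext_bound : ∃ M : ℝ, 0 ≤ M ∧ (∀ t : ℝ, |deriv Real.smoothTransition t| ≤ M) ∧
    (∀ t : ℝ, t < 0 → deriv Real.smoothTransition t = 0) ∧
    (∀ t : ℝ, 1 < t → deriv Real.smoothTransition t = 0) := by
  have hc : Continuous (deriv Real.smoothTransition) :=
    (Real.smoothTransition.contDiff (n := 1)).continuous_deriv (by norm_num)
  have h0 : ∀ t : ℝ, t < 0 → deriv Real.smoothTransition t = 0 := by
    intro t ht
    have : Real.smoothTransition =ᶠ[𝓝 t] fun _ => 0 := by
      filter_upwards [Iio_mem_nhds ht] with s hs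
      exact Real.smoothTransition.zero_of_nonpos (le_of_lt hs)
    rw [this.deriv_eq, deriv_const]
  have h1 : ∀ t : ℝ, 1 < t → deriv Real.smoothTransition t = 0 := by
    intro t ht
    have : Real.smoothTransition =ᶠ[𝓝 t] fun _ => 1 := by
      filter_upwards [Ioi_mem_nhds ht] with s hs
      exact Real.smoothTransition.one_of_one_le (le_of_lt hs)
    rw [this.deriv_eq, deriv_const]
  obtain ⟨M, hM⟩ := (isCompact_Icc (a := (0 : ℝ)) (b := 1)).exists_bound_of_continuousOn
    hc.continuousOn
  have hM0 : 0 ≤ M := (norm_nonneg _).trans (hM 0 (left_mem_Icc.2 zero_le_one))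
  refine ⟨M, hM0, ?_, h0, h1⟩
  intro t
  rcases lt_or_ge t 0 with ht | ht
  · rw [h0 t ht, abs_zero]
    exact hM0
  · rcases lt_or_ge 1 t with ht' | ht'
    · rw [h1 t ht', abs_zero]
      exact hM0
    · exact hM t ⟨ht, ht'⟩

theorem ext_eta_fderiv (δ : ℝ) (x v : E n) : fderiv ℝ (extEta n δ) x v =
    deriv Real.smoothTransition ((1 - δ - ‖x‖ ^ 2) * δ⁻¹) * (-(2 * ⟪x, v⟫) * δ⁻¹) := by
  set L : E n →L[ℝ] ℝ := (2 : ℕ) • (innerSL ℝ x) with hL
  have h1 : HasFDerivAt (fun y : E n => (1 - δ - ‖y‖ ^ 2) * δ⁻¹) (δ⁻¹ • (-L)) x := by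
    have h2 := ((hasStrictFDerivAt_norm_sq x).hasFDerivAt.const_sub (1 - δ)).mul_const δ⁻¹
    exact h2
  have h3 : HasDerivAt Real.smoothTransition
      (deriv Real.smoothTransition ((1 - δ - ‖x‖ ^ 2) * δ⁻¹)) ((1 - δ - ‖x‖ ^ 2) * δ⁻¹) :=
    ((Real.smoothTransition.contDiff (n := 1)).differentiable (by norm_num) _).hasDerivAt
  have h4 := h3.comp_hasFDerivAt x h1
  have h5 : fderiv ℝ (extEta n δ) x = deriv Real.smoothTransition ((1 - δ - ‖x‖ ^ 2) * δ⁻¹) •
      (δ⁻¹ • (-L)) := h4.fderiv
  have h6 : L v = 2 * ⟪x, v⟫ := by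
    rw [hL]
    simp
  rw [h5]
  change deriv Real.smoothTransition ((1 - δ - ‖x‖ ^ 2) * δ⁻¹) * (δ⁻¹ * (-(L v))) = _
  rw [h6]
  ring

/-! ### The identity -/

theorem ext_id (φ : E n → ℝ) (hφ : ContDiff ℝ (⊤ : ℕ∞) φ) (hc : HasCompactSupport φ) (v : E n) :
    ∫ x, (fderiv ℝ φ x v) • x = - ∫ x, φ x • v := by
  have hφ1 : ContDiff ℝ 1 φ := hφ.of_le (by exact_mod_cast le_top)
  have hfc : Continuous (fun x => fderiv ℝ φ x v) :=
    (hφ1.continuous_fderiv (by norm_num)).clm_apply continuous_const
  have hfs : HasCompactSupport (fun x => fderiv ℝ φ x v) := hc.fderiv_apply (𝕜 := ℝ) v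
  have h1 := integral_smul_fderiv_eq_neg_fderiv_smul_of_integrable (μ := (volume : Measure (E n)))
    (f := φ) (g := fun x : E n => x) (v := v)
    ((hfc.smul continuous_id).integrable_of_hasCompactSupport hfs.smul_right) (by
      simp only [fderiv_fun_id, ContinuousLinearMap.id_apply]
      exact (hφ.continuous.smul continuous_const).integrable_of_hasCompactSupport
        hc.smul_right)
    ((hφ.continuous.smul continuous_id).integrable_of_hasCompactSupport hc.smul_right)
    (fun x _ => (hφ1.differentiable (by norm_num)) x)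
    (fun x _ => differentiableAt_id)
  simp only [fderiv_fun_id, ContinuousLinearMap.id_apply] at h1
  rw [h1, neg_neg]

/-! ### The shell -/

theorem ext_shell (δ : ℝ) (hδ : 0 < δ) (hδ2 : 2 * δ < 1) :
    volume.real {x : E n | 1 - 2 * δ ≤ ‖x‖ ∧ ‖x‖ < 1} ≤
      2 * n * δ * volume.real (ball (0 : E n) 1) := by
  have hset : {x : E n | 1 - 2 * δ ≤ ‖x‖ ∧ ‖x‖ < 1} = ball (0 : E n) 1 \ ball 0 (1 - 2 * δ) := by
    ext x
    simp only [mem_ofPred_eq, Set.mem_sdiff, mem_ball_zero_iff, not_lt]
    tauto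
  have hr : 0 < 1 - 2 * δ := by linarith
  rw [hset, measureReal_sdiff (ball_subset_ball (by linarith)) measurableSet_ball
    measure_ball_lt_top.ne]
  have h1 : volume.real (ball (0 : E n) (1 - 2 * δ)) =
      (1 - 2 * δ) ^ n * volume.real (ball (0 : E n) 1) := by
    rw [measureReal_def, Measure.addHaar_ball_of_pos volume (0 : E n) hr, ENNReal.toReal_mul,
      finrank_euclideanSpace_fin, ENNReal.toReal_ofReal (by positivity), measureReal_def]
  rw [h1]
  have h2 : 1 + (n : ℝ) * (-(2 * δ)) ≤ (1 + -(2 * δ)) ^ n :=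
    one_add_mul_le_pow (by linarith) n
  have h3 : (1 + -(2 * δ)) ^ n = (1 - 2 * δ) ^ n := by ring
  rw [h3] at h2
  have h4 : 0 ≤ volume.real (ball (0 : E n) 1) := measureReal_nonneg
  nlinarith

/-! ### Integrability -/

theorem ext_int (ψ : E n → ℝ) (hψ : Continuous ψ) (M : ℝ) (hM : ∀ x, |ψ x| ≤ M) (w : E n → E n)
    (hw : Integrable w) : Integrable (fun x => ψ x • w x) := by
  refine (hw.norm.const_mul M).mono' (hψ.aestronglyMeasurable.smul hw.aestronglyMeasurable)
    (Eventually.of_forall fun x => ?_)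
  rw [norm_smul]
  exact mul_le_mul_of_nonneg_right (hM x) (norm_nonneg _)

theorem ext_bdd (ψ : E n → ℝ) (hψ : Continuous ψ) (hc : HasCompactSupport ψ) :
    ∃ M : ℝ, 0 ≤ M ∧ ∀ x, |ψ x| ≤ M := by
  obtain ⟨M, hM⟩ := hc.exists_bound_of_continuous hψ
  exact ⟨M, (norm_nonneg _).trans (hM 0), hM⟩

/-! ### The identity for the cutoff test functions -/

theorem ext_star (f : E n → E n) (F : E n → E n) (hF : Continuous F)
    (hfF : ∀ x, ‖x‖ < 1 → F x = f x) (G : E n → E n →L[ℝ] E n) (D : E n → E n →L[ℝ] E n)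
    (hDG : ∀ x, ‖x‖ < 1 → D x = G x - I n) (hw : WeakDiff (ball 0 1) f G) (hD : Integrable D)
    (φ : E n → ℝ) (hφ : ContDiff ℝ (⊤ : ℕ∞) φ) (hc : HasCompactSupport φ) (v : E n)
    (δ : ℝ) (hδ : 0 < δ) :
    (∫ x, extEta n δ x • ((fderiv ℝ φ x v) • (F x - x))) +
      (∫ x, (φ x * fderiv ℝ (extEta n δ) x v) • (F x - x)) =
      - ∫ x, extEta n δ x • (φ x • D x v) := by
  obtain ⟨-, -, hw3⟩ := hw
  set ψ : E n → ℝ := fun x => extEta n δ x * φ x with hψ
  have hη := ext_eta_contDiff (n := n) δ
  have hψd : ContDiff ℝ (⊤ : ℕ∞) ψ := hη.mul hφ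
  have hψc : HasCompactSupport ψ := hc.mul_left
  have hψt : tsupport ψ ⊆ ball 0 1 := by
    refine tsupport_mul_subset_left.trans ((ext_eta_tsupport δ hδ).trans ?_)
    intro x hx
    rw [mem_ofPred_eq] at hx
    rw [mem_ball_zero_iff]
    nlinarith [norm_nonneg x]
  have hout : ∀ x, ¬ ‖x‖ < 1 → x ∉ tsupport ψ := by
    intro x hx hx'
    exact hx (by simpa using hψt hx')
  have hψ1 : ContDiff ℝ 1 ψ := hψd.of_le (by exact_mod_cast le_top)
  have hφ1 : ContDiff ℝ 1 φ := hφ.of_le (by exact_mod_cast le_top)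
  have hη1 : ContDiff ℝ 1 (extEta n δ) := hη.of_le (by exact_mod_cast le_top)
  have hfc : Continuous (fun x => fderiv ℝ ψ x v) :=
    (hψ1.continuous_fderiv (by norm_num)).clm_apply continuous_const
  have hfs : HasCompactSupport (fun x => fderiv ℝ ψ x v) := hψc.fderiv_apply (𝕜 := ℝ) v
  have h1 := hw3 ψ hψd hψc hψt v
  have h2 := ext_id ψ hψd hψc v
  have e1 : ∫ x, (fderiv ℝ ψ x v) • f x = ∫ x, (fderiv ℝ ψ x v) • F x := by
    apply integral_congr_ae (Eventually.of_forall fun x => ?_)
    by_cases hx : ‖x‖ < 1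
    · simp only [hfF x hx]
    · simp only [fderiv_of_notMem_tsupport ℝ (hout x hx), zero_apply, zero_smul]
  have e2 : ∫ x, ψ x • G x v = ∫ x, (ψ x • D x v + ψ x • v) := by
    apply integral_congr_ae (Eventually.of_forall fun x => ?_)
    by_cases hx : ‖x‖ < 1
    · simp only [hDG x hx, sub_apply, ContinuousLinearMap.id_apply, smul_sub, sub_add_cancel]
    · simp only [image_eq_zero_of_notMem_tsupport (hout x hx), zero_smul, add_zero]
  obtain ⟨M, hM0, hM⟩ := ext_bdd ψ hψd.continuous hψc
  have hDv : Integrable (fun x => D x v) := hD.apply_continuousLinearMap v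
  have i1 : Integrable (fun x => ψ x • D x v) := ext_int ψ hψd.continuous M hM _ hDv
  have i2 : Integrable (fun x => ψ x • v) :=
    (hψd.continuous.smul continuous_const).integrable_of_hasCompactSupport hψc.smul_right
  have i3 : Integrable (fun x => (fderiv ℝ ψ x v) • F x) :=
    (hfc.smul hF).integrable_of_hasCompactSupport hfs.smul_right
  have i4 : Integrable (fun x => (fderiv ℝ ψ x v) • x) :=
    (hfc.smul continuous_id).integrable_of_hasCompactSupport hfs.smul_right
  rw [e1, e2, integral_add i1 i2] at h1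
  have h3 : ∫ x, (fderiv ℝ ψ x v) • (F x - x) = - ∫ x, ψ x • D x v := by
    simp only [smul_sub]
    rw [integral_sub i3 i4, h1, h2]
    abel
  have hFc : Continuous fun x => F x - x := hF.sub continuous_id
  have hA : Integrable (fun x => extEta n δ x • ((fderiv ℝ φ x v) • (F x - x))) := by
    have c1 : Continuous fun x => (fderiv ℝ φ x v) • (F x - x) :=
      (((hφ1.continuous_fderiv (by norm_num)).clm_apply continuous_const)).smul hFc
    have s1 : HasCompactSupport fun x => (fderiv ℝ φ x v) • (F x - x) :=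
      (hc.fderiv_apply (𝕜 := ℝ) v).smul_right
    exact (hη.continuous.smul c1).integrable_of_hasCompactSupport s1.smul_left
  have hB : Integrable (fun x => (φ x * fderiv ℝ (extEta n δ) x v) • (F x - x)) := by
    have c1 : Continuous fun x => φ x * fderiv ℝ (extEta n δ) x v :=
      hφ.continuous.mul ((hη1.continuous_fderiv (by norm_num)).clm_apply continuous_const)
    have s1 : HasCompactSupport fun x => φ x * fderiv ℝ (extEta n δ) x v := hc.mul_right
    exact (c1.smul hFc).integrable_of_hasCompactSupport s1.smul_right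
  have h4 : ∀ x, extEta n δ x • ((fderiv ℝ φ x v) • (F x - x)) +
      (φ x * fderiv ℝ (extEta n δ) x v) • (F x - x) = (fderiv ℝ ψ x v) • (F x - x) := by
    intro x
    have h5 : fderiv ℝ ψ x = extEta n δ x • fderiv ℝ φ x + φ x • fderiv ℝ (extEta n δ) x :=
      fderiv_fun_mul (hη1.differentiable (by norm_num) x) (hφ1.differentiable (by norm_num) x)
    rw [h5, add_apply, smul_apply, smul_apply, add_smul, smul_eq_mul, smul_eq_mul, smul_smul]
  rw [← integral_add hA hB]
  simp only [h4]
  rw [h3]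
  simp only [hψ, smul_smul]

/-! ### The theorem -/

theorem weakDiff_extend (hn : 2 ≤ n) (f : E n → E n) (hf : ContinuousOn f (closedBall 0 1))
    (hb : ∀ x ∈ sphere (0 : E n) 1, f x = x) (G : E n → E n →L[ℝ] E n)
    (hw : WeakDiff (ball 0 1) f G) (hG : IntegrableOn G (ball 0 1)) :
    WeakDiff univ (fun x => if ‖x‖ < 1 then f x else x)
      (fun x => if ‖x‖ < 1 then G x else I n) := by
  classical
  set F : E n → E n := fun x => if ‖x‖ < 1 then f x else x with hFdef
  set GG : E n → E n →L[ℝ] E n := fun x => if ‖x‖ < 1 then G x else I n with hGG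
  have hFc : Continuous F := by
    have h1 : ContinuousOn F (closedBall 0 1) := by
      apply hf.congr
      intro x hx
      rcases lt_or_eq_of_le (mem_closedBall_zero_iff.1 hx) with h | h
      · simp [hFdef, h]
      · simp [hFdef, h, hb x (by simpa using h)]
    have h2 : ContinuousOn F (ball 0 1)ᶜ := by
      apply continuousOn_id.congr
      intro x hx
      have : ¬ ‖x‖ < 1 := by simpa using hx
      simp [hFdef, this]
    have h3 := h1.union_of_isClosed h2 isClosed_closedBall isOpen_ball.isClosed_compl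
    have h4 : closedBall (0 : E n) 1 ∪ (ball 0 1)ᶜ = univ := by
      apply eq_univ_of_forall
      intro x
      by_cases hx : x ∈ ball (0 : E n) 1
      · exact Or.inl (ball_subset_closedBall hx)
      · exact Or.inr hx
    rw [h4] at h3
    exact continuousOn_univ.1 h3
  have hD : Integrable (fun x => GG x - I n) := by
    have h1 : IntegrableOn (fun x => GG x - I n) (ball 0 1) := by
      have h0 : IntegrableOn (fun x => G x - I n) (ball 0 1) := by
        refine hG.sub ?_
        exact integrableOn_const measure_ball_lt_top.ne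
      refine h0.congr_fun (fun x hx => ?_) measurableSet_ball
      have hx' : ‖x‖ < 1 := by simpa using hx
      simp [hGG, hx']
    have h2 : IntegrableOn (fun x => GG x - I n) (ball 0 1)ᶜ := by
      have h0 : Integrable (fun _ : E n => (0 : E n →L[ℝ] E n)) volume :=
        continuous_const.integrable_of_hasCompactSupport HasCompactSupport.zero
      refine h0.integrableOn.congr_fun (fun x hx => ?_) measurableSet_ball.compl
      have hx' : ¬ ‖x‖ < 1 := by simpa using hx
      simp [hGG, hx']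
    rw [← integrableOn_univ, ← union_compl_self (ball (0 : E n) 1)]
    exact h1.union h2
  refine ⟨hFc.locallyIntegrable.locallyIntegrableOn _, ?_, ?_⟩
  · have h1 : LocallyIntegrable GG := by
      have h2 := hD.locallyIntegrable.add
        (locallyIntegrable_const (μ := (volume : Measure (E n))) (I n))
      have h3 : ((fun x => GG x - I n) + fun _ => I n) = GG := by
        funext x
        simp
      rwa [h3] at h2
    exact h1.locallyIntegrableOn _
  intro φ hφ hc _ v
  have hφ1 : ContDiff ℝ 1 φ := hφ.of_le (by exact_mod_cast le_top)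
  set h : E n → E n := fun x => F x - x with hh
  have hhc : Continuous h := hFc.sub continuous_id
  have hh0 : ∀ x, 1 ≤ ‖x‖ → h x = 0 := by
    intro x hx
    simp [hh, hFdef, not_lt.2 hx]
  set D : E n → E n →L[ℝ] E n := fun x => GG x - I n with hDdef
  have hD0 : ∀ x, 1 ≤ ‖x‖ → D x = 0 := by
    intro x hx
    simp [hDdef, hGG, not_lt.2 hx]
  have hfc : Continuous (fun x => fderiv ℝ φ x v) :=
    (hφ1.continuous_fderiv (by norm_num)).clm_apply continuous_const
  have hfs : HasCompactSupport (fun x => fderiv ℝ φ x v) := hc.fderiv_apply (𝕜 := ℝ) v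
  obtain ⟨M, hM0, hM⟩ := ext_bdd φ hφ.continuous hc
  have hDv : Integrable (fun x => D x v) := hD.apply_continuousLinearMap v
  have i1 : Integrable (fun x => φ x • D x v) := ext_int φ hφ.continuous M hM _ hDv
  have i3 : Integrable (fun x => (fderiv ℝ φ x v) • h x) :=
    (hfc.smul hhc).integrable_of_hasCompactSupport hfs.smul_right
  -- the sequence
  set δ : ℕ → ℝ := fun k => 1 / ((k : ℝ) + 4) with hδdef
  have hδ0 : ∀ k, 0 < δ k := fun k => by
    simp only [hδdef]
    positivity
  have hδ1 : ∀ k, 2 * δ k < 1 := by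
    intro k
    simp only [hδdef]
    rw [mul_one_div, div_lt_one (by positivity)]
    have : (0 : ℝ) ≤ (k : ℝ) := Nat.cast_nonneg k
    linarith
  have hδt : Tendsto δ atTop (𝓝 0) := by
    have h1 : Tendsto (fun k : ℕ => (k : ℝ) + 4) atTop atTop :=
      tendsto_atTop_add_const_right _ _ tendsto_natCast_atTop_atTop
    refine h1.inv_tendsto_atTop.congr fun k => ?_
    simp [hδdef]
  have hηt : ∀ x : E n, ‖x‖ < 1 → ∀ᶠ k in atTop, extEta n (δ k) x = 1 := by
    intro x hx
    have h1 : 0 < (1 - ‖x‖ ^ 2) / 2 := by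
      have := norm_nonneg x
      nlinarith
    filter_upwards [hδt.eventually_lt_const h1] with k hk
    apply ext_eta_one _ (hδ0 k)
    linarith
  -- the three limits
  have hlimA : Tendsto (fun k => ∫ x, extEta n (δ k) x • ((fderiv ℝ φ x v) • (F x - x))) atTop
      (𝓝 (∫ x, (fderiv ℝ φ x v) • h x)) := by
    refine tendsto_integral_of_dominated_convergence (fun x => ‖(fderiv ℝ φ x v) • h x‖) ?_
      i3.norm ?_ ?_
    · intro k
      exact ((ext_eta_contDiff (δ k)).continuous.smul (hfc.smul hhc)).aestronglyMeasurable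
    · intro k
      refine Eventually.of_forall fun x => ?_
      rw [norm_smul, Real.norm_eq_abs, abs_of_nonneg (ext_eta_nonneg _ _)]
      exact mul_le_of_le_one_left (norm_nonneg _) (ext_eta_le_one _ _)
    · refine Eventually.of_forall fun x => ?_
      by_cases hx : ‖x‖ < 1
      · apply tendsto_const_nhds.congr'
        filter_upwards [hηt x hx] with k hk
        rw [hk, one_smul]
      · have h1 : h x = 0 := hh0 x (not_lt.1 hx)
        have h2 : F x - x = 0 := h1
        simp only [h1, h2, smul_zero]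
        exact tendsto_const_nhds
  have hlimC : Tendsto (fun k => ∫ x, extEta n (δ k) x • (φ x • D x v)) atTop
      (𝓝 (∫ x, φ x • D x v)) := by
    refine tendsto_integral_of_dominated_convergence (fun x => ‖φ x • D x v‖) ?_
      i1.norm ?_ ?_
    · intro k
      exact (ext_eta_contDiff (δ k)).continuous.aestronglyMeasurable.smul
        i1.aestronglyMeasurable
    · intro k
      refine Eventually.of_forall fun x => ?_
      rw [norm_smul, Real.norm_eq_abs, abs_of_nonneg (ext_eta_nonneg _ _)]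
      exact mul_le_of_le_one_left (norm_nonneg _) (ext_eta_le_one _ _)
    · refine Eventually.of_forall fun x => ?_
      by_cases hx : ‖x‖ < 1
      · apply tendsto_const_nhds.congr'
        filter_upwards [hηt x hx] with k hk
        rw [hk, one_smul]
      · have h1 : D x = 0 := hD0 x (not_lt.1 hx)
        simp only [h1, zero_apply, smul_zero]
        exact tendsto_const_nhds
  obtain ⟨B, hB0, hB, hBneg, hBpos⟩ := ext_bound
  have hlimB : Tendsto (fun k => ∫ x, (φ x * fderiv ℝ (extEta n (δ k)) x v) • (F x - x)) atTop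
      (𝓝 0) := by
    set V := volume.real (ball (0 : E n) 1) with hV
    have hV0 : 0 ≤ V := measureReal_nonneg
    set K : ℝ := M * (B * (2 * ‖v‖)) * (2 * n * V) + 1 with hK
    have hK0 : 0 < K := by positivity
    rw [Metric.tendsto_atTop]
    intro ε hε
    -- `h` is small near the sphere
    have hunif := (isCompact_closedBall (0 : E n) 1).uniformContinuousOn_of_continuous
      hhc.continuousOn
    rw [Metric.uniformContinuousOn_iff] at hunif
    obtain ⟨θ, hθ, hθh⟩ := hunif (ε / K) (by positivity)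
    have hsm : ∀ x : E n, 1 - θ < ‖x‖ → 0 < ‖x‖ → ‖x‖ < 1 → ‖h x‖ ≤ ε / K := by
      intro x hx1 hx0 hx2
      set w : E n := ‖x‖⁻¹ • x with hw'
      have hwn : ‖w‖ = 1 := by
        rw [hw', norm_smul, norm_inv, norm_norm, inv_mul_cancel₀ hx0.ne']
      have hdist : dist x w < θ := by
        rw [dist_eq_norm]
        have e1 : x - w = (‖x‖ - 1) • w := by
          rw [sub_smul, one_smul]
          congr 1
          rw [hw', smul_smul, mul_inv_cancel₀ hx0.ne', one_smul]
        rw [e1, norm_smul, hwn, mul_one, Real.norm_eq_abs, abs_lt]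
        constructor <;> linarith
      have h1 := hθh x (by simpa using hx2.le) w (by simpa using hwn.le) hdist
      rw [hh0 w hwn.ge, dist_zero_right] at h1
      exact h1.le
    obtain ⟨N, hN⟩ := (hδt.eventually_lt_const (show (0 : ℝ) < θ / 2 by positivity)).exists_forall_of_atTop
    refine ⟨N, fun k hk => ?_⟩
    rw [dist_zero_right]
    set s : Set (E n) := {x : E n | 1 - 2 * δ k ≤ ‖x‖ ∧ ‖x‖ < 1} with hs
    have hzero : ∀ x, x ∉ s → (φ x * fderiv ℝ (extEta n (δ k)) x v) • (F x - x) = 0 := by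
      intro x hx
      have hd0 : 1 ≤ ‖x‖ ∨ ‖x‖ < 1 - 2 * δ k := by
        by_contra hcon
        push Not at hcon
        exact hx ⟨hcon.2, hcon.1⟩
      rcases hd0 with h1 | h1
      · have h2 : F x - x = 0 := hh0 x h1
        rw [h2, smul_zero]
      · have h2 : fderiv ℝ (extEta n (δ k)) x v = 0 := by
          rw [ext_eta_fderiv, hBpos, zero_mul]
          rw [← div_eq_mul_inv, lt_div_iff₀ (hδ0 k)]
          have := norm_nonneg x
          have h3 := hδ0 k
          nlinarith
        rw [h2, mul_zero, zero_smul]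
    rw [← setIntegral_eq_integral_of_forall_compl_eq_zero hzero]
    have hfin : volume s < ⊤ := by
      refine lt_of_le_of_lt (measure_mono ?_) (measure_ball_lt_top (x := (0 : E n)) (r := 1))
      intro x hx
      simpa using hx.2
    have hbd : ∀ x ∈ s, ‖(φ x * fderiv ℝ (extEta n (δ k)) x v) • (F x - x)‖ ≤
        M * (B * (2 * ‖v‖) * (δ k)⁻¹) * (ε / K) := by
      intro x hx
      have hx0 : 0 < ‖x‖ := by
        have := hδ1 k
        linarith [hx.1]
      have h1 : ‖h x‖ ≤ ε / K := by
        apply hsm x _ hx0 hx.2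
        have := hN k hk
        linarith [hx.1]
      have h2 : |fderiv ℝ (extEta n (δ k)) x v| ≤ B * (2 * ‖v‖) * (δ k)⁻¹ := by
        have hi : 0 < (δ k)⁻¹ := inv_pos.2 (hδ0 k)
        rw [ext_eta_fderiv, abs_mul, abs_mul, abs_neg, abs_mul, abs_of_pos hi,
          abs_of_pos (show (0 : ℝ) < 2 by norm_num)]
        have h3 : |⟪x, v⟫| ≤ ‖v‖ := by
          refine (abs_real_inner_le_norm x v).trans ?_
          exact mul_le_of_le_one_left (norm_nonneg _) hx.2.le
        calc |deriv Real.smoothTransition ((1 - δ k - ‖x‖ ^ 2) * (δ k)⁻¹)| *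
            (2 * |⟪x, v⟫| * (δ k)⁻¹) ≤ B * (2 * ‖v‖ * (δ k)⁻¹) := by
              apply mul_le_mul (hB _) _ (by positivity) hB0
              apply mul_le_mul_of_nonneg_right _ hi.le
              linarith
          _ = B * (2 * ‖v‖) * (δ k)⁻¹ := by ring
      rw [norm_smul, norm_mul, Real.norm_eq_abs, Real.norm_eq_abs]
      apply mul_le_mul _ h1 (norm_nonneg _) _
      · exact mul_le_mul (hM x) h2 (abs_nonneg _) hM0
      · have hi : 0 < (δ k)⁻¹ := inv_pos.2 (hδ0 k)
        positivity
    have h1 := norm_setIntegral_le_of_norm_le_const hfin hbd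
    have h2 := ext_shell (n := n) (δ k) (hδ0 k) (hδ1 k)
    have hi : 0 < (δ k)⁻¹ := inv_pos.2 (hδ0 k)
    have h3 : M * (B * (2 * ‖v‖) * (δ k)⁻¹) * (ε / K) * volume.real s ≤
        M * (B * (2 * ‖v‖) * (δ k)⁻¹) * (ε / K) * (2 * n * δ k * V) :=
      mul_le_mul_of_nonneg_left h2 (by positivity)
    have h4 : M * (B * (2 * ‖v‖) * (δ k)⁻¹) * (ε / K) * (2 * n * δ k * V) =
        (K - 1) * (ε / K) := by
      have h5 : (δ k)⁻¹ * δ k = 1 := inv_mul_cancel₀ (hδ0 k).ne'
      calc M * (B * (2 * ‖v‖) * (δ k)⁻¹) * (ε / K) * (2 * n * δ k * V) =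
          M * (B * (2 * ‖v‖)) * (2 * n * V) * (ε / K) * ((δ k)⁻¹ * δ k) := by ring
        _ = (K - 1) * (ε / K) := by
            rw [h5, hK]
            ring
    have h5 : (K - 1) * (ε / K) < ε := by
      have h6 : K * (ε / K) = ε := by field_simp
      have h7 : 0 < ε / K := by positivity
      linarith
    linarith
  have hstar : ∀ k, (∫ x, extEta n (δ k) x • ((fderiv ℝ φ x v) • (F x - x))) +
      (∫ x, (φ x * fderiv ℝ (extEta n (δ k)) x v) • (F x - x)) =
      - ∫ x, extEta n (δ k) x • (φ x • D x v) := by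
    intro k
    apply ext_star f F hFc _ G D _ hw hD φ hφ hc v (δ k) (hδ0 k)
    · intro x hx
      simp [hFdef, hx]
    · intro x hx
      simp [hDdef, hGG, hx]
  have hfinal : ∫ x, (fderiv ℝ φ x v) • h x = - ∫ x, φ x • D x v := by
    have h1 := hlimA.add hlimB
    simp only [hstar, add_zero] at h1
    exact tendsto_nhds_unique h1 hlimC.neg
  have hid := ext_id φ hφ hc v
  have i2 : Integrable (fun x => φ x • v) :=
    (hφ.continuous.smul continuous_const).integrable_of_hasCompactSupport hc.smul_right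
  have i4 : Integrable (fun x => (fderiv ℝ φ x v) • x) :=
    (hfc.smul continuous_id).integrable_of_hasCompactSupport hfs.smul_right
  have e1 : ∫ x, (fderiv ℝ φ x v) • F x = ∫ x, ((fderiv ℝ φ x v) • h x + (fderiv ℝ φ x v) • x) := by
    apply integral_congr_ae (Eventually.of_forall fun x => ?_)
    simp only [hh, smul_sub, sub_add_cancel]
  have e2 : ∫ x, φ x • GG x v = ∫ x, (φ x • D x v + φ x • v) := by
    apply integral_congr_ae (Eventually.of_forall fun x => ?_)
    simp only [hDdef, sub_apply, ContinuousLinearMap.id_apply, smul_sub, sub_add_cancel]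
  rw [e1, e2, integral_add i3 i4, integral_add i1 i2, hfinal, hid]
  abel

end Pool.Agent.H56.QC
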